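import Mathlib
import Pool.Agent.Lib.PD7c5de.Final

set_option autoImplicit false

namespace Pool.Agent.Results.MP_d7c5de_lc.OneVaryingLetter

/-- Two words are comparable when one of them is a prefix of the other. -/
def Comparable {B : Type} (u v : FreeMonoid B) : Prop :=
  (∃ w : FreeMonoid B, u * w = v) ∨ (∃ w : FreeMonoid B, v * w = u)

/-- `(h, g)` is a unique equality continuation instance: for every word `u` and every pair of
distinct letters `a, b`, if `h(ua), g(ua)` are comparable and `h(ub), g(ub)` are comparable, then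
`h(u) = g(u)`. -/
def UEC {A B : Type} (h g : FreeMonoid A →* FreeMonoid B) : Prop :=
  ∀ (u : FreeMonoid A) (a b : A), a ≠ b →
    Comparable (h (u * FreeMonoid.of a)) (g (u * FreeMonoid.of a)) →
    Comparable (h (u * FreeMonoid.of b)) (g (u * FreeMonoid.of b)) → h u = g u

/-- The instance `(h, g)` of the Post Correspondence Problem has a solution: a nonempty word `x`
with `h(x) = g(x)`. -/
def Solvable {A B : Type} (h g : FreeMonoid A →* FreeMonoid B) : Prop :=
  ∃ x : FreeMonoid A, x ≠ 1 ∧ h x = g x

/-- The monoid morphism `A* → B*` whose letter images are the words `I a`. -/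
def mor {A B : Type} (I : A → List B) : FreeMonoid A →* FreeMonoid B :=
  FreeMonoid.lift (fun a => FreeMonoid.ofList (I a))

/-- The letter images with `w` as the image of the letter `0` and `I j` as the image of the letter
`j + 1`. -/
def withFirst {k : ℕ} (w : List (Fin 2)) (I : Fin k → List (Fin 2)) : Fin (k + 1) → List (Fin 2) :=
  Fin.cons w I

/-- The finite list of letter images of a morphism `{0,…,k-1}* → {0,…,l-1}*`, the words being
written as lists of natural numbers. -/
def code {k l : ℕ} (I : Fin k → List (Fin l)) : List (List ℕ) :=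
  List.ofFn (fun a : Fin k => (I a).map (fun b : Fin l => (b : ℕ)))

/-! ### Words and lists -/

open Pool.Agent.Lib.PD7c5de

theorem toList_mor {A B : Type} (I : A → List B) (u : FreeMonoid A) :
    FreeMonoid.toList (mor I u) = (FreeMonoid.toList u).flatMap I := by
  rw [mor, FreeMonoid.lift_apply, FreeMonoid.toList_prod, List.map_map, List.flatMap_def]
  rfl

theorem comparable_iff {B : Type} (u v : FreeMonoid B) :
    Comparable u v ↔ Cmp (FreeMonoid.toList u) (FreeMonoid.toList v) := by
  constructor
  · rintro (⟨w, rfl⟩ | ⟨w, rfl⟩)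
    · exact Or.inl ⟨FreeMonoid.toList w, rfl⟩
    · exact Or.inr ⟨FreeMonoid.toList w, rfl⟩
  · rintro (⟨w, hw⟩ | ⟨w, hw⟩)
    · exact Or.inl ⟨FreeMonoid.ofList w, FreeMonoid.toList.injective hw⟩
    · exact Or.inr ⟨FreeMonoid.ofList w, FreeMonoid.toList.injective hw⟩

theorem eq_iff {B : Type} (u v : FreeMonoid B) :
    u = v ↔ FreeMonoid.toList u = FreeMonoid.toList v :=
  FreeMonoid.toList.injective.eq_iff.symm

/-- A binary prefix code for the natural numbers. -/
def bin (n : ℕ) : List (Fin 2) := List.replicate n 1 ++ [0]

theorem bin_cmp : ∀ {m n : ℕ} {x y : List (Fin 2)}, Cmp (bin m ++ x) (bin n ++ y) →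
    m = n ∧ Cmp x y := by
  intro m
  induction m with
  | zero =>
    intro n x y h
    rcases n with _ | n
    · exact ⟨rfl, by simpa [bin, Cmp] using h⟩
    · exfalso
      simp only [bin, List.replicate_zero, List.nil_append, List.replicate_succ,
        List.cons_append] at h
      exact not_cmp_of_head (by decide) h
  | succ m ih =>
    intro n x y h
    rcases n with _ | n
    · exfalso
      simp only [bin, List.replicate_zero, List.nil_append, List.replicate_succ,
        List.cons_append] at h
      exact not_cmp_of_head (by decide) h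
    · simp only [bin, List.replicate_succ, List.cons_append] at h
      have h2 : Cmp (bin m ++ x) (bin n ++ y) := by
        simpa [bin] using cmp_cons_iff.1 h
      obtain ⟨h3, h4⟩ := ih h2
      exact ⟨by rw [h3], h4⟩

theorem bin_ne_nil (n : ℕ) : bin n ≠ [] := by simp [bin]

theorem cmp_bin_iff : ∀ (x y : List ℕ), Cmp (x.flatMap bin) (y.flatMap bin) ↔ Cmp x y := by
  intro x
  induction x with
  | nil => intro y; simp [Cmp]
  | cons a x ih =>
    intro y
    rcases y with _ | ⟨b, y⟩
    · simp [Cmp]
    · simp only [List.flatMap_cons]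
      constructor
      · intro h
        obtain ⟨rfl, h2⟩ := bin_cmp h
        exact cmp_cons_iff.2 ((ih y).1 h2)
      · intro h
        have hab : a = b := by
          by_contra hne
          exact not_cmp_of_head hne h
        subst hab
        rw [Cmp.append_left_iff]
        exact (ih y).2 (cmp_cons_iff.1 h)

theorem bin_inj : ∀ (x y : List ℕ), x.flatMap bin = y.flatMap bin ↔ x = y := by
  intro x
  induction x with
  | nil =>
    intro y
    rcases y with _ | ⟨b, y⟩
    · simp
    · simp [bin_ne_nil]
  | cons a x ih =>
    intro y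
    rcases y with _ | ⟨b, y⟩
    · simp [bin_ne_nil]
    · simp only [List.flatMap_cons]
      constructor
      · intro h
        have h1 : Cmp (bin a ++ x.flatMap bin) (bin b ++ y.flatMap bin) :=
          Or.inl (by rw [h])
        obtain ⟨rfl, -⟩ := bin_cmp h1
        rw [List.append_cancel_left_eq, ih] at h
        rw [h]
      · intro h
        simp only [List.cons.injEq] at h
        obtain ⟨rfl, rfl⟩ := h
        rfl

/-! ### Every recursively enumerable predicate reduces to the universal one -/

theorem reduce_univF {p : ℕ → Prop} (hp : REPred p) :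
    ∃ f : ℕ → ℕ, Computable f ∧ ∀ n, p n ↔ (univF (f n)).Dom := by
  have h1 : Partrec (fun m : ℕ => (Part.assert (p (Nat.unpair m).1) fun _ => Part.some (0 : ℕ))) := by
    have h2 : Partrec (fun a : ℕ => Part.assert (p a) fun _ => Part.some ()) := hp
    have h3 := (h2.map (Computable.const (0 : ℕ)).to₂).comp
      (Computable.fst.comp Computable.unpair)
    refine h3.of_eq fun m => ?_
    ext x
    simp [eq_comm]
  obtain ⟨c, hc⟩ := Nat.Partrec.Code.exists_code.1 (Partrec.nat_iff.1 h1)
  refine ⟨fun n => Encodable.encode (Nat.Partrec.Code.curry c n), ?_, fun n => ?_⟩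
  · exact Computable.encode.comp
      ((Nat.Partrec.Code.primrec₂_curry.comp (Primrec.const c) Primrec.id).to_comp)
  · simp only [univF, Denumerable.ofNat_encode, Nat.Partrec.Code.eval_curry, hc]
    simp [Part.assert]

/-! ### The instances -/

theorem main : ∃ (k : ℕ) (hI : Fin (k + 1) → List (Fin 2)) (gI : Fin k → List (Fin 2))
    (W : ℕ → List (Fin 2)), 1 ≤ k ∧ Computable W ∧
    ∀ n, UEC (mor hI) (mor (withFirst (W n) gI)) ∧
      ((univF n).Dom ↔
        Solvable (mor hI) (mor (withFirst (W n) gI))) := by
  classical
  obtain ⟨Γ, Λ, iΓ, iΛ, fΓ, fΛ, M, s, F, hF⟩ := exists_tm0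
  obtain ⟨N⟩ := @exists_phData Γ Λ fΓ fΛ
  have : Fintype (Ltr Γ Λ) := Fintype.ofFinite _
  have hnt : 1 < Fintype.card (Ltr Γ Λ) := by
    rw [Fintype.one_lt_card_iff]
    exact ⟨Ltr.start, Ltr.er, by simp⟩
  obtain ⟨k, hk⟩ : ∃ k, Fintype.card (Ltr Γ Λ) = k + 1 :=
    ⟨Fintype.card (Ltr Γ Λ) - 1, by omega⟩
  let e₀ : Fin (k + 1) ≃ Ltr Γ Λ := (Fintype.equivFinOfCardEq hk).symm
  let e : Fin (k + 1) ≃ Ltr Γ Λ := (Equiv.swap 0 (e₀.symm Ltr.start)).trans e₀
  have he0 : e 0 = Ltr.start := by simp [e]
  have hes : ∀ j : Fin k, e j.succ ≠ Ltr.start := by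
    intro j h
    rw [← he0] at h
    exact Fin.succ_ne_zero j (e.injective h)
  let R : ℕ → List Γ := fun n => (bitsB n).reverse.map F
  have D : ∀ n, RunData (N.h M s) (N.g M s (R n)) Ltr.start Ltr.er (qstep M) N.ov (ltr M)
      (initConf s (R n)) Good := fun n => runData N M s (R n)
  let hI : Fin (k + 1) → List (Fin 2) := fun i => (N.h M s (e i)).flatMap bin
  let gI : Fin k → List (Fin 2) := fun j => (N.g M s [] (e j.succ)).flatMap bin
  let W : ℕ → List (Fin 2) := fun n => (N.code (Sym.hd default s) ++
      ((bitsB n).reverse).flatMap (fun b => N.code (Sym.pl (F b)))).flatMap bin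
  have hg : ∀ n, withFirst (W n) gI =
      fun i => (N.g M s (R n) (e i)).flatMap bin := by
    intro n
    funext i
    refine Fin.cases ?_ (fun j => ?_) i
    · simp only [withFirst, Fin.cons_zero, he0, W]
      congr 1
      simp only [PhData.g, R]
      rw [List.map_map, List.flatMap_map]
      rfl
    · simp only [withFirst, Fin.cons_succ, gI]
      have h1 := hes j
      cases h2 : e j.succ with
      | start => exact absurd h2 h1
      | _ => rfl
  -- translation of words
  have tH : ∀ u : FreeMonoid (Fin (k + 1)), FreeMonoid.toList (mor hI u) =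
      (((FreeMonoid.toList u).map e).flatMap (N.h M s)).flatMap bin := by
    intro u
    rw [toList_mor, List.flatMap_map, List.flatMap_assoc]
  have tG : ∀ n, ∀ u : FreeMonoid (Fin (k + 1)),
      FreeMonoid.toList (mor (withFirst (W n) gI) u) =
      (((FreeMonoid.toList u).map e).flatMap (N.g M s (R n))).flatMap bin := by
    intro n u
    rw [hg n, toList_mor, List.flatMap_map, List.flatMap_assoc]
  have hEq : ∀ n, ∀ u : FreeMonoid (Fin (k + 1)),
      mor hI u = mor (withFirst (W n) gI) u ↔
      ((FreeMonoid.toList u).map e).flatMap (N.h M s) =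
        ((FreeMonoid.toList u).map e).flatMap (N.g M s (R n)) := by
    intro n u
    rw [eq_iff, tH, tG, bin_inj]
  have hCmp : ∀ n, ∀ u : FreeMonoid (Fin (k + 1)),
      Comparable (mor hI u) (mor (withFirst (W n) gI) u) ↔
      Cmp (((FreeMonoid.toList u).map e).flatMap (N.h M s))
        (((FreeMonoid.toList u).map e).flatMap (N.g M s (R n))) := by
    intro n u
    rw [comparable_iff, tH, tG, cmp_bin_iff]
  refine ⟨k, hI, gI, W, by omega, ?_, fun n => ⟨?_, ?_⟩⟩
  · -- computability
    have hP : Primrec (fun n : ℕ => (N.code (Sym.hd default s) ++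
        ((bitsB n).reverse).flatMap (fun b => N.code (Sym.pl (F b)))).flatMap bin) := by
      have hbin : Primrec bin := by
        have h1 : Primrec (fun n : ℕ => (Nat.rec [] (fun _ IH => (1 : Fin 2) :: IH) n
            : List (Fin 2))) := by
          refine Primrec.nat_rec' (f := fun n : ℕ => n) (g := fun _ => ([] : List (Fin 2)))
            (h := fun _ p => (1 : Fin 2) :: p.2) Primrec.id (Primrec.const _) ?_
          exact Primrec.list_cons.comp (Primrec.const _) (Primrec.snd.comp Primrec.snd)
        have h2 : Primrec (fun n : ℕ => List.replicate n (1 : Fin 2)) := by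
          refine h1.of_eq fun n => ?_
          induction n with
          | zero => rfl
          | succ n ih => rw [List.replicate_succ, ← ih]
        exact Primrec.list_append.comp h2 (Primrec.const _)
      refine Primrec.list_flatMap (f := fun n : ℕ => N.code (Sym.hd default s) ++
        ((bitsB n).reverse).flatMap (fun b => N.code (Sym.pl (F b))))
        (g := fun _ m => bin m) ?_ (hbin.comp Primrec.snd)
      refine Primrec.list_append.comp (Primrec.const _) ?_
      refine Primrec.list_flatMap (Primrec.list_reverse.comp primrec_bitsB) ?_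
      exact (Primrec.dom_finite (fun b : Bool => N.code (Sym.pl (F b)))).comp Primrec.snd
    exact hP.to_comp
  · -- unique equality continuation
    intro u a b hab ha hb
    rw [hCmp, FreeMonoid.toList_mul, FreeMonoid.toList_of, List.map_append, List.map_cons,
      List.map_nil] at ha hb
    rw [hEq]
    exact (D n).unique _ (e a) (e b) (fun h => hab (e.injective h)) ha hb
  · rw [← hF n, ← queue_eval_dom_iff, ← (D n).solvable_iff]
    constructor
    · rintro ⟨u, hu, he⟩
      refine ⟨FreeMonoid.ofList (u.map e.symm), ?_, ?_⟩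
      · intro h
        apply hu
        have h2 : u.map e.symm = [] := h
        simpa using h2
      · rw [hEq, FreeMonoid.toList_ofList, List.map_map]
        have : (e ∘ e.symm : Ltr Γ Λ → Ltr Γ Λ) = id := by
          funext x
          simp
        rw [this, List.map_id]
        exact he
    · rintro ⟨x, hx, he⟩
      refine ⟨(FreeMonoid.toList x).map e, ?_, (hEq n x).1 he⟩
      intro h
      apply hx
      have h2 : FreeMonoid.toList x = [] := by simpa using h
      exact h2

/-- **PCP for unique equality continuation instances is undecidable, and even `Σ₁`-complete when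
everything except the image of one letter under one of the two morphisms is fixed.** -/
theorem result :
    (∃ (k : ℕ) (hI : Fin (k + 1) → List (Fin 2)) (gI : Fin k → List (Fin 2)), 1 ≤ k ∧
      ∀ p : ℕ → Prop, REPred p → ∃ W : ℕ → List (Fin 2), Computable W ∧
        ∀ n, UEC (mor hI) (mor (withFirst (W n) gI)) ∧
          (p n ↔ Solvable (mor hI) (mor (withFirst (W n) gI)))) ∧
    (¬ ∃ P : (ℕ × ℕ) × (List (List ℕ) × List (List ℕ)) → Prop, ComputablePred P ∧
      ∀ (k l : ℕ), 2 ≤ k → ∀ (hI gI : Fin k → List (Fin l)), UEC (mor hI) (mor gI) →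
        (P ((k, l), (code hI, code gI)) ↔ Solvable (mor hI) (mor gI))) := by
  obtain ⟨k, hI, gI, W, hk, hW, hm⟩ := main
  refine ⟨⟨k, hI, gI, hk, ?_⟩, ?_⟩
  · intro p hp
    obtain ⟨f, hf, hpf⟩ := reduce_univF hp
    exact ⟨fun n => W (f n), hW.comp hf, fun n => ⟨(hm (f n)).1, (hpf n).trans (hm (f n)).2⟩⟩
  · rintro ⟨P, hP, hPc⟩
    obtain ⟨f, hf, he⟩ := ComputablePred.computable_iff.1 hP
    have hcode : Computable (fun n : ℕ => code (withFirst (W n) gI)) := by
      have h1 : Primrec (fun w : List (Fin 2) => (w.map (fun b : Fin 2 => (b : ℕ))) ::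
          List.ofFn (fun a : Fin k => (gI a).map (fun b : Fin 2 => (b : ℕ)))) := by
        refine Primrec.list_cons.comp ?_ (Primrec.const _)
        refine Primrec.list_map Primrec.id ?_
        exact (Primrec.dom_finite (fun b : Fin 2 => (b : ℕ))).comp Primrec.snd
      refine (h1.to_comp.comp hW).of_eq fun n => ?_
      rw [code, List.ofFn_succ]
      rfl
    apply univF_undecidable
    refine ComputablePred.computable_iff.2 ⟨fun n => f ((k + 1, 2),
      (code hI, code (withFirst (W n) gI))), ?_, ?_⟩
    · exact hf.comp (Computable.pair (Computable.const _)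
        (Computable.pair (Computable.const _) hcode))
    · funext n
      have h1 := (hPc (k + 1) 2 (by omega) hI _ (hm n).1).trans (hm n).2.symm
      rw [he] at h1
      exact propext h1.symm

end Pool.Agent.Results.MP_d7c5de_lc.OneVaryingLetter
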